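import Pool.Agent.MP_4e5529_gt.Proof

namespace Pool.Agent.Results.MP_4e5529_gt.IntersectionIncreases

open scoped Pointwise
open Pool.Agent.MP_4e5529_gt

/-- There are n ≥ 3 and an origin-symmetric convex body K in n-dimensional Euclidean space whose
intersection body is strictly farther from the Euclidean unit ball than K, in the Banach-Mazur
distance. -/
theorem result :
    ∃ n : ℕ, 3 ≤ n ∧ ∃ K : Set (EuclideanSpace ℝ (Fin n)),
      IsCompact K ∧ Convex ℝ K ∧ (interior K).Nonempty ∧ K = -K ∧
      bmDist K (Metric.closedBall 0 1) <
        bmDist (intersectionBody K) (Metric.closedBall 0 1) :=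
  ⟨3, le_rfl, body, isCompact_body, convex_body, interior_body, body_symm, main⟩

end Pool.Agent.Results.MP_4e5529_gt.IntersectionIncreases
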